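import Pool.Agent.Helper61.FN.Tools
import Pool.Agent.Helper61.FN.GoalsC

/-!
# Project FN, packet C1B
-/

set_option autoImplicit false

namespace Pool.Agent.Helper63.FN

open Finset Pool.Agent.Helper61.FN

theorem mon6 {k : Type} [Field k] (x : Fin 6 → k) (m : Fin 6 → ℤ) :
    mon x m = x 0 ^ m 0 * x 1 ^ m 1 * x 2 ^ m 2 * x 3 ^ m 3 * x 4 ^ m 4 * x 5 ^ m 5 := by
  simp [mon, Fin.prod_univ_succ]
  ring

theorem algC1B {k : Type} [Field k] (P Q m e X0 X1 Z1 Z2 Y1 Y2 : k) (h2 : (2 : k) ≠ 0)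
    (hP : P ≠ 0) (hQ : Q ≠ 0) (hm : m ≠ 0) (hph : P + e ≠ 0) (hch : Q + e ≠ 0)
    (x0 : X0 ≠ 0) (x1 : X1 ≠ 0) (z1 : Z1 ≠ 0) (z2 : Z2 ≠ 0) (y1 : Y1 ≠ 0) (hY : Y2 = -Q * Y1 / P)
    (E0 : 2 * P * Q * (2 * P + 2 * Q + m + 2 * e) / X0 = P * Q * m * (Y1 / Y2 + Y2 / Y1) / X0 +
      P * Q * (P + e) * (Z1 / X1 + X1 / Z1) / X0 + P * Q * (Q + e) * (Z2 / X1 + X1 / Z2) / X0)
    (E2 : P * (P + e) * m / 2 * (Z1 / Y1 ^ 2) + P * Q * (P + e) * (Z1 / X1 - X1 / Z1) / X0 = 0)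
    (E3 : Q * (Q + e) * m / 2 * (Z2 / Y2 ^ 2) + P * Q * (Q + e) * (Z2 / X1 - X1 / Z2) / X0 = 0)
    (E4 : -(P * Q * m) * (Y1 / Y2 - Y2 / Y1) / X0 + P * Q * m * (X1 / (Y1 * Y2)) +
      P * (P + e) * m * (Z1 / Y1 ^ 2) = 0)
    (E5 : (P * Q * m) * (Y1 / Y2 - Y2 / Y1) / X0 + P * Q * m * (X1 / (Y1 * Y2)) +
      Q * (Q + e) * m * (Z2 / Y2 ^ 2) = 0) :
    ∃ th t1 t2 : k, th ≠ 0 ∧ t1 ≠ 0 ∧ t2 ≠ 0 ∧
      th * Q * (P - (P + e) * t1) = Q ^ 2 - P ^ 2 ∧
      th * P * (Q - (Q + e) * t2) = P ^ 2 - Q ^ 2 ∧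
      2 * P * (t1 ^ 2 - 1) = m * th * t1 ^ 2 ∧
      2 * Q * (t2 ^ 2 - 1) = m * th * t2 ^ 2 ∧
      2 * (2 * P + 2 * Q + m + 2 * e) + m * (P / Q + Q / P) =
        (P + e) * (t1 + t1⁻¹) + (Q + e) * (t2 + t2⁻¹) := by
  subst hY
  refine ⟨X0 * X1 / (Y1 * (-Q * Y1 / P)), Z1 / X1, Z2 / X1, ?_, ?_, ?_, ?_, ?_, ?_, ?_, ?_⟩
  · exact div_ne_zero (mul_ne_zero x0 x1)
      (mul_ne_zero y1 (div_ne_zero (mul_ne_zero (neg_ne_zero.2 hQ) y1) hP))
  · exact div_ne_zero z1 x1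
  · exact div_ne_zero z2 x1
  · field_simp at E4 ⊢
    exact mul_left_cancel₀ hm (by linear_combination E4)
  · field_simp at E5 ⊢
    exact mul_left_cancel₀ hm (by linear_combination E5)
  · field_simp at E2 ⊢
    exact mul_left_cancel₀ (mul_ne_zero hP hph) (by linear_combination E2)
  · field_simp at E3 ⊢
    exact mul_left_cancel₀ (mul_ne_zero hch hP) (by linear_combination E3)
  · field_simp at E0 ⊢
    linear_combination E0

theorem goalC1B : G_C1B := by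
  intro F k _ _ _ _ _ p q mu ep lam v M ξ h h0 h1 h2 h3 h5 h4
  obtain ⟨p1, q1, mu0, ep2, ph0, ch0⟩ := h.par
  have hp : 0 < p := lt_of_lt_of_le one_pos p1
  have hq : 0 < q := lt_of_lt_of_le one_pos q1
  have hM : v 4 < M := by
    have hs := h.sm
    rw [h0, h1, h2, h3, h5] at hs
    by_contra hc
    have hc' : (M : F) ≤ v 4 := by exact_mod_cast not_lt.1 hc
    have hb : (0 : F) < v 4 := by exact_mod_cast h4
    push_cast at hs
    have e1 : (0 : F) < p * (p + ep) + q * (q + ep) := by positivity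
    have e2 : (0 : F) < 4 * p * q + p * (p + ep) + q * (q + ep) + 2 * p * mu + 2 * q * mu := by
      positivity
    nlinarith [mul_pos hb e1, mul_le_mul_of_nonneg_right hc' e2.le]
  have G (j : Fin 20) : gr (mC j) v = (![0, -2, -2, -2, -1, -1, -2, 0, 0, 0, -2, -2, 0, 0, 0, -4,
      0, 0, -4, 0] : Fin 20 → ℤ) j * v 4 := by
    rw [gr6, h0, h1, h2, h3, h5]
    fin_cases j <;> simp [mC] <;> ring
  have Gz (j : Fin 20) : gr (mC j) v = 0 ↔
      j ∈ ({0, 7, 8, 9, 12, 13, 14, 16, 17, 19} : Finset (Fin 20)) := by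
    rw [G]
    have h4' : v 4 ≠ 0 := h4.ne'
    fin_cases j <;> simp [h4']
  have x0 := h.nrm.ne 0
  have x1 := h.nrm.ne 1
  have x2 := h.nrm.ne 2
  have x3 := h.nrm.ne 3
  have x4 := h.nrm.ne 4
  have x5 := h.nrm.ne 5
  have Ap : algebraMap F k p ≠ 0 := am_ne hp.ne'
  have Aq : algebraMap F k q ≠ 0 := am_ne hq.ne'
  have Am : algebraMap F k mu ≠ 0 := am_ne mu0.ne'
  have Aph : algebraMap F k (p + ep) ≠ 0 := am_ne ph0.ne'
  have Ach : algebraMap F k (q + ep) ≠ 0 := am_ne ch0.ne'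
  have E (e : Fin 6) := h.nrm.ld0 e
  simp only [Gz, mul_ite, mul_zero, sum_ite_mem, univ_inter] at E
  have E0 := E 0
  have E2 := E 2
  have E3 := E 3
  have E4 := E 4
  have E5 := E 5
  have P (j : Fin 20) : pr (mC j) (![0, 2, 2, 2, 1, 1] : Fin 6 → F) =
      (![0, -2, -2, -2, -1, -1, -2, 0, 0, 0, -2, -2, 0, 0, 0, -4, 0, 0, -4, 0] : Fin 20 → F) j := by
    rw [pr6]
    fin_cases j <;> simp [mC] <;> norm_num
  have L := h.nrm.ld ![0, 2, 2, 2, 1, 1] (M - v 4) (by omega) (by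
    intro j hj
    rw [G]
    rw [P] at hj
    fin_cases j <;> simp at hj ⊢ <;> omega)
  have Gl (j : Fin 20) : M + gr (mC j) v = M - v 4 ↔ j ∈ ({4, 5} : Finset (Fin 20)) := by
    rw [G]
    fin_cases j <;> simp <;> omega
  rw [if_neg (by omega : ¬ (M - v 4 = 0))] at L
  simp only [Gl, P, sum_ite_mem, univ_inter] at L
  simp [mC, cC, mon6] at L E0 E2 E3 E4 E5
  simp only [map_ofNat] at L E0 E2 E3 E4 E5
  have h22 : (2 : k) ≠ 0 := by
    have := am_ne (k := k) (two_ne_zero : (2 : F) ≠ 0)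
    rwa [map_ofNat] at this
  have hK : (2 * algebraMap F k p + 2 * algebraMap F k q + algebraMap F k mu +
      2 * algebraMap F k ep) ≠ 0 := by
    have h6 : 2 * p + 2 * q + mu + 2 * ep ≠ 0 := by
      have : 0 < 2 * p + 2 * q + mu + 2 * ep := by linarith
      exact this.ne'
    have := am_ne (k := k) h6
    simpa only [map_add, map_mul, map_ofNat] using this
  rw [map_add] at Aph Ach
  have hY : ξ 5 = -algebraMap F k q * ξ 4 / algebraMap F k p := by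
    have h7 : 2 * algebraMap F k mu * (2 * algebraMap F k p + 2 * algebraMap F k q +
        algebraMap F k mu + 2 * algebraMap F k ep) ≠ 0 := mul_ne_zero (mul_ne_zero h22 Am) hK
    field_simp at L ⊢
    exact mul_left_cancel₀ h7 (by linear_combination -L)
  have h23 : (2 : k)⁻¹ * 2 = 1 := inv_mul_cancel₀ h22
  obtain ⟨th, t1, t2, r⟩ := algC1B (algebraMap F k p) (algebraMap F k q) (algebraMap F k mu)
    (algebraMap F k ep) (ξ 0) (ξ 1) (ξ 2) (ξ 3) (ξ 4) (ξ 5) h22 Ap Aq Am Aph Ach x0 x1 x2 x3 x4 hY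
    (by linear_combination -E0) (by linear_combination -E2) (by linear_combination -E3)
    (by linear_combination E4 - (algebraMap F k p * (algebraMap F k p + algebraMap F k ep) *
      algebraMap F k mu * (ξ 2 * (ξ 4 ^ 2)⁻¹)) * h23)
    (by linear_combination E5 - (algebraMap F k q * (algebraMap F k q + algebraMap F k ep) *
      algebraMap F k mu * (ξ 3 * (ξ 5 ^ 2)⁻¹)) * h23)
  refine ⟨th, t1, t2, ?_⟩
  unfold RelC1
  simp only [map_add, map_sub, map_mul, map_pow, map_div₀, map_ofNat]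
  exact r

end Pool.Agent.Helper63.FN
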